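import Pool.Agent.Q36.EH.Main

/-!
# The free Ehresmann monoid is weakly right and weakly left coherent (every rank)
-/

universe u

namespace Pool.Agent.Results.MP_9a323a_al.WeaklyCoherent

open Q36.EH

/-- For every set `X` the monoid reduct of the free Ehresmann monoid on `X` is weakly right
coherent and weakly left coherent. -/
theorem result (X : Type u) : WeaklyRightCoherent (FE X) ∧ WeaklyLeftCoherent (FE X) :=
  ⟨FE.weaklyRightCoherent, FE.weaklyLeftCoherent⟩

end Pool.Agent.Results.MP_9a323a_al.WeaklyCoherent
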